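import Pool.Agent.Run7.h253.D57.Sep

/-!
# MP_5766af_al, piece D8b: homogeneous elements
-/

noncomputable section

namespace Pool.Agent.Run7.h253.D57

open Finset Pool.Agent.Run7.h378

section

variable {K : Type} [Field K] [CharZero K] {D : Type} [DivisionRing D] {T : Data K}
  {A : Alg T.toCore D}

/-- elements of `F_l[ω]` are polynomials in `ω` -/
theorem closure_poly (hB : Base A) (hE : BaseE A) (l : ℕ) (ω : D) (hω : ω ∈ A.El l) (x : D)
    (hx : x ∈ Subring.closure ((A.ι '' ((fix T.g : Set K) ∩ (T.M l : Set K))) ∪ {ω})) :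
    ∃ (m : ℕ) (c : ℕ → K), (∀ k, c k ∈ fix T.g ∧ c k ∈ T.M l) ∧ (∀ k, m ≤ k → c k = 0) ∧
      x = ∑ k ∈ range m, A.ι (c k) * ω ^ k := by
  let F : Subfield K := fix T.g ⊓ T.M l
  let f : F →+* D := A.ι.comp F.subtype
  have hf : ∀ a, Commute (f a) ω := fun a =>
    hB.cen l (a : K) ((Subfield.mem_inf.1 a.2).1 l) ω (hE.sub l hω)
  let ψ : Polynomial F →+* D := Polynomial.eval₂RingHom' f ω hf
  have hle : Subring.closure ((A.ι '' ((fix T.g : Set K) ∩ (T.M l : Set K))) ∪ {ω}) ≤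
      ψ.range := by
    rw [Subring.closure_le]
    rintro y (hy | hy)
    · obtain ⟨z, ⟨hz1, hz2⟩, rfl⟩ := hy
      refine ⟨Polynomial.C (⟨z, Subfield.mem_inf.2 ⟨hz1, hz2⟩⟩ : F), ?_⟩
      change Polynomial.eval₂ f ω _ = _
      rw [Polynomial.eval₂_C]; rfl
    · rw [Set.mem_singleton_iff.1 hy]
      refine ⟨Polynomial.X, ?_⟩
      change Polynomial.eval₂ f ω _ = _
      rw [Polynomial.eval₂_X]
  obtain ⟨P, hP⟩ := hle hx
  refine ⟨P.natDegree + 1, fun k => (P.coeff k : K), fun k => ?_, fun k hk => ?_, ?_⟩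
  · exact Subfield.mem_inf.1 (P.coeff k).2
  · change ((P.coeff k : F) : K) = 0
    rw [Polynomial.coeff_eq_zero_of_natDegree_lt (by omega)]; rfl
  · rw [← hP]
    change Polynomial.eval₂ f ω P = _
    rw [Polynomial.eval₂_eq_sum_range]
    rfl

/-- the operator `∑ p_ij L_ω^i R_ω^j` -/
def op (A : Alg T.toCore D) (ω : D) (n : ℕ) (p : ℕ → ℕ → K) (x : D) : D :=
  ∑ i ∈ range n, ∑ j ∈ range n, A.ι (p i j) * (ω ^ i * x * ω ^ j)

theorem op_add (ω : D) (n : ℕ) (p : ℕ → ℕ → K) (x y : D) :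
    op A ω n p (x + y) = op A ω n p x + op A ω n p y := by
  unfold op
  rw [← Finset.sum_add_distrib]
  refine Finset.sum_congr rfl fun i _ => ?_
  rw [← Finset.sum_add_distrib]
  refine Finset.sum_congr rfl fun j _ => ?_
  rw [mul_add, add_mul, mul_add]

theorem op_sum {α : Type} (ω : D) (n : ℕ) (p : ℕ → ℕ → K) (s : Finset α) (x : α → D) :
    op A ω n p (∑ a ∈ s, x a) = ∑ a ∈ s, op A ω n p (x a) := by
  classical
  induction s using Finset.induction_on with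
  | empty => simp [op]
  | insert a s ha ih => rw [Finset.sum_insert ha, Finset.sum_insert ha, op_add, ih]

theorem op_mem (R : Subring D) (ω : D) (hω : ω ∈ R) (n : ℕ) (p : ℕ → ℕ → K)
    (hp : ∀ i j, A.ι (p i j) ∈ R) (x : D) (hx : x ∈ R) : op A ω n p x ∈ R :=
  Subring.sum_mem _ fun i _ => Subring.sum_mem _ fun j _ =>
    R.mul_mem (hp i j) (R.mul_mem (R.mul_mem (R.pow_mem hω i) hx) (R.pow_mem hω j))

theorem op_left (ω : D) (n : ℕ) (p : ℕ → ℕ → K) (κ : K) (hκ : A.ι κ * ω = ω * A.ι κ) (x : D) :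
    op A ω n p (A.ι κ * x) = A.ι κ * op A ω n p x := by
  unfold op
  rw [Finset.mul_sum]
  refine Finset.sum_congr rfl fun i _ => ?_
  rw [Finset.mul_sum]
  refine Finset.sum_congr rfl fun j _ => ?_
  have h1 : ω ^ i * A.ι κ = A.ι κ * ω ^ i :=
    (Commute.pow_left (show Commute ω (A.ι κ) from hκ.symm) i).eq
  have h2 : A.ι (p i j) * A.ι κ = A.ι κ * A.ι (p i j) := by
    rw [← map_mul, mul_comm, map_mul]
  calc A.ι (p i j) * (ω ^ i * (A.ι κ * x) * ω ^ j)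
      = A.ι (p i j) * ((ω ^ i * A.ι κ) * x * ω ^ j) := by simp only [mul_assoc]
    _ = (A.ι (p i j) * A.ι κ) * (ω ^ i * x * ω ^ j) := by rw [h1]; simp only [mul_assoc]
    _ = _ := by rw [h2]; simp only [mul_assoc]

/-- `op` of an element of `D_l u` -/
theorem op_u (hB : Base A) (l : ℕ) (ω : D) (hω : ω ∈ A.Dl l) (n : ℕ) (p : ℕ → ℕ → K)
    (d : D) (hd : d ∈ A.Dl l) :
    ∃ e ∈ A.Dl l, op A ω n p (d * A.u (l + 1)) = e * A.u (l + 1) := by
  have hu0 : A.u (l + 1) ≠ 0 := hB.u_ne _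
  set ω₁ : D := A.u (l + 1) * ω * (A.u (l + 1))⁻¹ with hω₁
  have hω₁D : ω₁ ∈ DR hB l := hB.conj l ω hω
  have hmv : ∀ j, A.u (l + 1) * ω ^ j = ω₁ ^ j * A.u (l + 1) := by
    intro j
    induction j with
    | zero => simp
    | succ j ih =>
      rw [pow_succ, ← mul_assoc, ih, pow_succ, mul_assoc, mul_assoc]
      congr 1
      rw [hω₁, mul_assoc, inv_mul_cancel₀ hu0, mul_one]
  refine ⟨∑ i ∈ range n, ∑ j ∈ range n, A.ι (p i j) * (ω ^ i * d * ω₁ ^ j), ?_, ?_⟩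
  · change _ ∈ DR hB l
    refine Subring.sum_mem _ fun i _ => Subring.sum_mem _ fun j _ => ?_
    exact (DR hB l).mul_mem (hB.ι_mem l _)
      ((DR hB l).mul_mem ((DR hB l).mul_mem ((DR hB l).pow_mem hω i) hd)
        ((DR hB l).pow_mem hω₁D j))
  · unfold op
    rw [Finset.sum_mul]
    refine Finset.sum_congr rfl fun i _ => ?_
    rw [Finset.sum_mul]
    refine Finset.sum_congr rfl fun j _ => ?_
    calc A.ι (p i j) * (ω ^ i * (d * A.u (l + 1)) * ω ^ j)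
        = A.ι (p i j) * (ω ^ i * d * (A.u (l + 1) * ω ^ j)) := by simp only [mul_assoc]
      _ = _ := by rw [hmv]; simp only [mul_assoc]

/-- an operator killing a given element of `E_l` -/
theorem exists_kill (hB : Base A) (hE : BaseE A) (hN : NoAlg A) (hLF : S_LF) (h2 : S_alg2)
    (l : ℕ) (ω : D) (hω : ω ∈ A.El l) (hωF : ω ∉ A.Fs) (d : D) (hd : d ∈ A.El l) :
    ∃ (n : ℕ) (p : ℕ → ℕ → K), (∀ i j, p i j ∈ fix T.g ∧ p i j ∈ T.M l) ∧
      (∃ i j, i < n ∧ j < n ∧ p i j ≠ 0) ∧ op A ω n p d = 0 := by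
  have hω0 : ω ≠ 0 := by
    rintro rfl
    exact hωF ⟨0, (fix T.g).zero_mem, map_zero _⟩
  obtain ⟨n', p', hp', hp0, hsum⟩ := hLF K T D A hB hE hN h2 l ω d ω hω hωF hd hω hω0
  choose m c hc hc0 hx using fun i => closure_poly hB hE l ω hω (p' i) (hp' i)
  set n : ℕ := n' + 1 + ∑ j ∈ range (n' + 1), m j with hn
  have hmn : ∀ j, j < n' + 1 → m j ≤ n := fun j hj => by
    have := Finset.single_le_sum (f := m) (fun i _ => Nat.zero_le _) (Finset.mem_range.2 hj)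
    omega
  have hfull : ∀ j, j < n' + 1 → p' j = ∑ k ∈ range n, A.ι (c j k) * ω ^ k := by
    intro j hj
    rw [hx j]
    refine Finset.sum_subset (Finset.range_subset_range.2 (hmn j hj)) fun k _ hk => ?_
    rw [hc0 j k (by simpa using hk), map_zero, zero_mul]
  refine ⟨n, fun k j => if j < n' + 1 then c j k else 0, fun i j => ?_, ?_, ?_⟩
  · dsimp only
    split_ifs
    · exact hc j i
    · exact ⟨(fix T.g).zero_mem, (T.M l).zero_mem⟩
  · by_contra hcon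
    push Not at hcon
    apply hp0
    rw [hfull 0 (by omega)]
    refine Finset.sum_eq_zero fun k hk => ?_
    have := hcon k 0 (Finset.mem_range.1 hk) (by omega)
    rw [if_pos (by omega)] at this
    rw [this, map_zero, zero_mul]
  · unfold op
    rw [Finset.sum_comm, ← hsum]
    have hsub : range (n' + 1) ⊆ range n := Finset.range_subset_range.2 (by omega)
    symm
    rw [← Finset.sum_subset hsub]
    · refine Finset.sum_congr rfl fun j hj => ?_
      have hj' := Finset.mem_range.1 hj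
      rw [hfull j hj', Finset.sum_mul, Finset.sum_mul]
      refine Finset.sum_congr rfl fun k _ => ?_
      simp only [hj', if_true, mul_assoc]
    · intro j _ hj
      refine Finset.sum_eq_zero fun k _ => ?_
      have hj' : ¬ j < n' + 1 := fun h => hj (Finset.mem_range.2 h)
      simp only [hj', if_false, map_zero, zero_mul]

/-- the elimination -/
theorem elim (hB : Base A) (hE : BaseE A) (hN : NoAlg A) (hLF : S_LF) (h2 : S_alg2)
    (hsep : S_sep) (l : ℕ) (ω : D) (hω : ω ∈ A.El l) (hωF : ω ∉ A.Fs) (S : Subring D)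
    (hS : A.Fs ⊆ S) (hωS : ω ∈ S) (N : ℕ) :
    ∀ (κ : ℕ → K) (e : ℕ → D) (d₁ : D), (∀ i, T.g l (κ i) = κ i) → (∀ i, e i ∈ A.El l) →
      d₁ ∈ A.Dl l → d₁ ≠ 0 → ∑ i ∈ range N, A.ι (κ i) * e i + d₁ * A.u (l + 1) ∈ S →
      ∃ b ∈ S, b ≠ 0 ∧ ∃ e ∈ A.Dl l, b = e * A.u (l + 1) := by
  have hωD : ω ∈ A.Dl l := hE.sub l hω
  induction N with
  | zero =>
    intro κ e d₁ _ _ hd hd0 hmem
    rw [Finset.sum_range_zero, zero_add] at hmem
    exact ⟨_, hmem, mul_ne_zero hd0 (hB.u_ne _), d₁, hd, rfl⟩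
  | succ N ih =>
    intro κ e d₁ hκ he hd hd0 hmem
    obtain ⟨n, p, hp, hpne, hkill⟩ := exists_kill hB hE hN hLF h2 l ω hω hωF (e N) (he N)
    obtain ⟨d₂, hd₂, hd₂e⟩ := op_u hB l ω hωD n p d₁ hd
    have hne : op A ω n p (d₁ * A.u (l + 1)) ≠ 0 :=
      hsep K T D A hB hE hN h2 l ω d₁ hω hωF hd hd0 n p hp hpne
    refine ih κ (fun i => op A ω n p (e i)) d₂ hκ (fun i => ?_) hd₂ ?_ ?_
    · exact op_mem (ER hE l) ω hω n p (fun i j => hE.ι_mem l _ (hp i j).2) (e i) (he i)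
    · intro h; rw [hd₂e, h, zero_mul] at hne; exact hne rfl
    · have h1 := op_mem (A := A) S ω hωS n p (fun i j => hS ⟨_, (hp i j).1, rfl⟩) _ hmem
      rw [op_add, op_sum, Finset.sum_range_succ] at h1
      have hcm : ∀ i, A.ι (κ i) * ω = ω * A.ι (κ i) := fun i => hB.cen l _ (hκ i) ω hωD
      rw [op_left ω n p _ (hcm N), hkill, mul_zero, add_zero, hd₂e] at h1
      convert h1 using 2
      refine Finset.sum_congr rfl fun i _ => ?_
      rw [op_left ω n p _ (hcm i)]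

end

/-- PIECE D8b. -/
theorem p_A : S_A := by
  intro K _ _ T D _ A hB hE hN hLF h2 hsep S hS hbig
  obtain ⟨ω, hωS, hω0⟩ := hbig 0
  have hωF : ω ∉ A.Fs := by
    rintro ⟨x, _, rfl⟩
    exact hω0 (hB.ι_mem 0 x)
  obtain ⟨l₀, hωl₀⟩ := hE.exh ω
  have hEmono : ∀ l, l₀ ≤ l → ω ∈ A.El l := by
    intro l hl
    induction l, hl using Nat.le_induction with
    | base => exact hωl₀
    | succ l _ ih => exact hE.mono l ih
  have hDmono : ∀ k l, k ≤ l → A.Dl k ⊆ A.Dl l := by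
    intro k l hl
    induction l, hl using Nat.le_induction with
    | base => exact subset_rfl
    | succ l _ ih => exact ih.trans (hB.mono l)
  -- (i)
  have hgood : ∀ l, l₀ ≤ l → (∃ s ∈ S, s ∈ A.Dl (l + 1) ∧ s ∉ A.Dl l) →
      ∃ b ∈ S, b ≠ 0 ∧ ∃ e ∈ A.Dl l, b = e * A.u (l + 1) := by
    rintro l hl ⟨s, hsS, hs1, hs2⟩
    obtain ⟨d₀, hd₀, d₁, hd₁, rfl⟩ := hB.split l s hs1
    have hd1 : d₁ ≠ 0 := by
      rintro rfl
      apply hs2
      rw [zero_mul, add_zero]; exact hd₀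
    obtain ⟨N, e, he, hbas, _⟩ := hE.basis l
    obtain ⟨x, hx, hxe⟩ := hbas d₀ hd₀
    have hsum : ∑ i ∈ range N, A.ι (if h : i < N then x ⟨i, h⟩ else 0) *
        (if h : i < N then e ⟨i, h⟩ else 0) = d₀ := by
      rw [hxe, Finset.sum_range]
      refine Finset.sum_congr rfl fun i _ => ?_
      simp only [Fin.is_lt, dif_pos, Fin.eta]
    refine elim hB hE hN hLF h2 hsep l ω (hEmono l hl) hωF S hS hωS N
      (fun i => if h : i < N then x ⟨i, h⟩ else 0) (fun i => if h : i < N then e ⟨i, h⟩ else 0)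
      d₁ (fun i => ?_) (fun i => ?_) hd₁ hd1 ?_
    · split_ifs
      · exact hx _
      · exact map_zero _
    · split_ifs
      · exact he _
      · exact hE.zero_mem l
    · rw [hsum]; exact hsS
  -- (ii) descent
  have hdesc : ∀ l, l₀ ≤ l → (∃ b ∈ S, b ≠ 0 ∧ ∃ e ∈ A.Dl (l + 1), b = e * A.u (l + 2)) →
      ∃ b ∈ S, b ≠ 0 ∧ ∃ e ∈ A.Dl l, b = e * A.u (l + 1) := by
    rintro l hl ⟨b, hbS, hb0, e, he, rfl⟩
    refine hgood l hl ⟨_, S.mul_mem hbS hbS, ?_, ?_⟩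
    · have h1 : e * A.u (l + 2) * (e * A.u (l + 2)) =
          e * (A.u (l + 2) * e * (A.u (l + 2))⁻¹) * (A.u (l + 2) * A.u (l + 2)) := by
        simp only [mul_assoc]
        rw [inv_mul_cancel_left₀ (hB.u_ne _)]
      rw [h1, A.u_sq]
      exact hB.mul_mem _ _ _ (hB.mul_mem _ _ _ he (hB.conj _ _ he))
        (hB.mul_mem _ _ _ (hB.ι_mem _ _) (hB.u_mem _))
    · intro hmem
      have he0 : e ≠ 0 := fun h => hb0 (by rw [h, zero_mul])
      obtain ⟨k, hk, hwk⟩ := hB.val_u (l + 1) e he he0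
      obtain ⟨n, hn⟩ := hB.val l _ hmem (mul_ne_zero hb0 hb0)
      rw [AddValuation.map_mul, hwk, ← WithTop.coe_add, WithTop.coe_inj] at hn
      obtain ⟨r, hr⟩ := hk
      have h2 : (k : ℚ) = 2 * n := by
        have h3 : (2 : ℚ) ^ l ≠ 0 := by positivity
        have h4 : (2 : ℚ) ^ (l + 1 + 1) = 4 * 2 ^ l := by ring
        rw [h4] at hn
        field_simp at hn
        linarith
      have h3 : k = 2 * n := by exact_mod_cast h2
      omega
  have hall : ∀ l, l₀ ≤ l → ∃ b ∈ S, b ≠ 0 ∧ ∃ e ∈ A.Dl l, b = e * A.u (l + 1) := by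
    intro l hl
    obtain ⟨s, hsS, hsl⟩ := hbig l
    -- least level containing `s`
    classical
    have hex : ∃ k, s ∈ A.Dl k := hB.exh s
    set k := Nat.find hex with hk
    have hks : s ∈ A.Dl k := Nat.find_spec hex
    have hkl : l < k := by
      by_contra hcon
      exact hsl (hDmono k l (by omega) hks)
    obtain ⟨k', hk'⟩ : ∃ k', k = k' + 1 := ⟨k - 1, by omega⟩
    have hks' : s ∉ A.Dl k' := Nat.find_min hex (by omega)
    have hg0 := hgood k' (by omega) ⟨s, hsS, by rw [← hk']; exact hks, hks'⟩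
    -- descend from `k'` to `l`
    have hdd : ∀ j, ∀ l', l₀ ≤ l' →
        (∃ b ∈ S, b ≠ 0 ∧ ∃ e ∈ A.Dl (l' + j), b = e * A.u (l' + j + 1)) →
        ∃ b ∈ S, b ≠ 0 ∧ ∃ e ∈ A.Dl l', b = e * A.u (l' + 1) := by
      intro j
      induction j with
      | zero => intro l' _ h; exact h
      | succ j ih =>
        intro l' hl' h
        refine ih l' hl' (hdesc (l' + j) (by omega) ?_)
        exact h
    obtain ⟨j, hj⟩ : ∃ j, k' = l + j := ⟨k' - l, by omega⟩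
    rw [hj] at hg0
    exact hdd j l hl hg0
  refine ⟨l₀, hall, ?_⟩
  -- (iii)
  intro l hl x hx hcomm
  obtain ⟨d₀, hd₀, d₁, hd₁, rfl⟩ := hB.split l x hx
  by_cases hd1 : d₁ = 0
  · rw [hd1, zero_mul, add_zero]; exact hd₀
  exfalso
  have hωE := hEmono l hl
  have hωD := hE.sub l hωE
  have hc := hcomm ω hωS (hB.mono l hωD)
  have hu0 : A.u (l + 1) ≠ 0 := hB.u_ne _
  set ω₁ : D := A.u (l + 1) * ω * (A.u (l + 1))⁻¹ with hω₁
  have hω₁D : ω₁ ∈ A.Dl l := hB.conj l ω hωD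
  have hmv : A.u (l + 1) * ω = ω₁ * A.u (l + 1) := by
    rw [hω₁, mul_assoc, inv_mul_cancel₀ hu0, mul_one]
  have hz : (ω * d₀ - d₀ * ω) + (ω * d₁ - d₁ * ω₁) * A.u (l + 1) = 0 := by
    have h1 : (ω * d₀ - d₀ * ω) + (ω * d₁ - d₁ * ω₁) * A.u (l + 1) =
        ω * (d₀ + d₁ * A.u (l + 1)) - (d₀ + d₁ * A.u (l + 1)) * ω := by
      rw [mul_add, add_mul, sub_mul, mul_assoc d₁ (A.u (l + 1)) ω, hmv]
      simp only [mul_assoc]
      abel
    rw [h1, hc, sub_self]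
  have hsub : ∀ a b, a ∈ A.Dl l → b ∈ A.Dl l → a - b ∈ A.Dl l := fun a b ha hb => by
    rw [sub_eq_add_neg]; exact hB.add_mem _ _ _ ha (hB.neg_mem _ _ hb)
  have hz2 := (hB.split_zero l _ _ (hsub _ _ (hB.mul_mem _ _ _ hωD hd₀)
    (hB.mul_mem _ _ _ hd₀ hωD)) (hsub _ _ (hB.mul_mem _ _ _ hωD hd₁)
    (hB.mul_mem _ _ _ hd₁ hω₁D)) hz).2
  have hz3 : ω * (d₁ * A.u (l + 1)) - d₁ * A.u (l + 1) * ω = 0 := by
    rw [mul_assoc d₁, hmv, ← mul_assoc, ← mul_assoc, ← sub_mul, hz2, zero_mul]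
  refine hsep K T D A hB hE hN h2 l ω d₁ hωE hωF hd₁ hd1 2
    (fun i j => if i = 1 ∧ j = 0 then 1 else if i = 0 ∧ j = 1 then -1 else 0) ?_ ?_ ?_
  · intro i j
    split_ifs
    · exact ⟨(fix T.g).one_mem, (T.M l).one_mem⟩
    · exact ⟨(fix T.g).neg_mem (fix T.g).one_mem, (T.M l).neg_mem (T.M l).one_mem⟩
    · exact ⟨(fix T.g).zero_mem, (T.M l).zero_mem⟩
  · exact ⟨1, 0, by norm_num, by norm_num, by simp⟩
  · simp only [Finset.sum_range_succ, Finset.sum_range_zero]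
    simp
    rw [← sub_eq_neg_add]
    simpa using hz3

end Pool.Agent.Run7.h253.D57
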