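import Pool.Agent.Run7.h378.IfaceD

/-!
# MP_5766af_al, piece D8a: the separation lemma
-/

noncomputable section

namespace Pool.Agent.Run7.h253.D57

open Finset Pool.Agent.Run7.h378

/-- Abstract form. `E` is a division subring, finite dimensional as a left space over the field
`ι M`, `y` is left algebraic over `E`, `ι t` commutes with `E` and `y` and is algebraic over
`C [y]`, `C ⊆ E` commuting with `y`.  Then `t` is algebraic over `M`. -/
theorem abs_sep {K : Type} [Field K] {D : Type} [DivisionRing D] (ι : K →+* D) (M : Subfield K)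
    (E : Subring D) (hM : ∀ x ∈ M, ι x ∈ E) (N : ℕ) (b : ℕ → D) (hb : ∀ i, b i ∈ E)
    (hspan : ∀ e ∈ E, ∃ f : ℕ → K, (∀ i, f i ∈ M) ∧ e = ∑ i ∈ range N, ι (f i) * b i)
    (hinv : ∀ e ∈ E, e⁻¹ ∈ E)
    (y : D) (j₀ : ℕ) (q : ℕ → D) (hq : ∀ j, q j ∈ E) (hq0 : q j₀ ≠ 0)
    (hrel : ∑ j ∈ range (j₀ + 1), q j * y ^ j = 0)
    (C : Set D) (hC : ∀ c ∈ C, c ∈ E) (hCy : ∀ c ∈ C, c * y = y * c)
    (t : K) (htE : ∀ e ∈ E, e * ι t = ι t * e) (hty : y * ι t = ι t * y)
    (m : ℕ) (r : ℕ → D) (hr : ∀ i, r i ∈ Subring.closure (C ∪ {y})) (hrm : r m ≠ 0)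
    (hrt : ∑ i ∈ range (m + 1), r i * ι t ^ i = 0) : IsAlgebraic M t := by
  classical
  let _ : Module K D := Module.compHom D ι
  have hsm : ∀ (x : K) (d : D), x • d = ι x * d := fun x d => rfl
  have hsm' : ∀ (x : M) (d : D), x • d = ι (x : K) * d := fun x d => rfl
  haveI : Module.IsTorsionFree K D := by
    refine ⟨fun x hx a c hac => ?_⟩
    have hx0 : x ≠ 0 := hx.ne_zero
    have : ι x * a = ι x * c := hac
    exact mul_left_cancel₀ ((map_ne_zero ι).2 hx0) this
  have hj0 : 0 < j₀ := by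
    rcases Nat.eq_zero_or_pos j₀ with h | h
    · exfalso; subst h; apply hq0; simpa using hrel
    · exact h
  have hm0 : 0 < m := by
    rcases Nat.eq_zero_or_pos m with h | h
    · exfalso; subst h; apply hrm; simpa using hrt
    · exact h
  -- the space `V`
  set GV : Set D := Set.image2 (fun a j => b a * y ^ j) (Set.Iio N) (Set.Iio j₀) with hGV
  set V : Submodule M D := Submodule.span M GV with hV
  have hVfin : V.FG := Submodule.fg_span ((Set.finite_Iio N).image2 _ (Set.finite_Iio j₀))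
  have hEj : ∀ e ∈ E, ∀ j, j < j₀ → e * y ^ j ∈ V := by
    intro e he j hj
    obtain ⟨f, hf, rfl⟩ := hspan e he
    rw [Finset.sum_mul]
    refine Submodule.sum_mem _ fun i hi => ?_
    rw [mul_assoc]
    exact V.smul_mem (⟨f i, hf i⟩ : M)
      (Submodule.subset_span ⟨i, Finset.mem_range.1 hi, j, hj, rfl⟩)
  have hEV : ∀ v ∈ V, ∀ e ∈ E, e * v ∈ V := by
    intro v hv
    refine Submodule.span_induction (p := fun v _ => ∀ e ∈ E, e * v ∈ V) ?_ ?_ ?_ ?_ hv
    · rintro _ ⟨a, _, j, hj, rfl⟩ e he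
      change e * (b a * y ^ j) ∈ V
      rw [← mul_assoc]
      exact hEj _ (E.mul_mem he (hb a)) j hj
    · intro e _; simp
    · intro x z _ _ hx hz e he
      rw [mul_add]; exact V.add_mem (hx e he) (hz e he)
    · intro c x _ hx e he
      rw [hsm', ← mul_assoc]
      exact hx _ (E.mul_mem he (hM _ c.2))
  have hyj : ∀ j, j ≤ j₀ → y ^ j ∈ V := by
    intro j hj
    rcases Nat.lt_or_ge j j₀ with h | h
    · simpa using hEj 1 E.one_mem j h
    · have hjj : j = j₀ := le_antisymm hj h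
      subst hjj
      rw [Finset.sum_range_succ] at hrel
      have h1 : y ^ j = ∑ i ∈ range j, (-((q j)⁻¹ * q i)) * y ^ i := by
        have h2 : q j * y ^ j = - ∑ i ∈ range j, q i * y ^ i := by
          rw [eq_neg_iff_add_eq_zero, add_comm]; exact hrel
        have h3 : y ^ j = (q j)⁻¹ * (q j * y ^ j) := by
          rw [← mul_assoc, inv_mul_cancel₀ hq0, one_mul]
        rw [h3, h2, mul_neg, Finset.mul_sum, ← Finset.sum_neg_distrib]
        refine Finset.sum_congr rfl fun i _ => ?_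
        rw [neg_mul, mul_assoc]
      rw [h1]
      exact Submodule.sum_mem _ fun i hi =>
        hEj _ (E.neg_mem (E.mul_mem (hinv _ (hq j)) (hq i))) i (Finset.mem_range.1 hi)
  have hVy : ∀ v ∈ V, v * y ∈ V := by
    intro v hv
    refine Submodule.span_induction (p := fun v _ => v * y ∈ V) ?_ ?_ ?_ ?_ hv
    · rintro _ ⟨a, _, j, hj, rfl⟩
      change b a * y ^ j * y ∈ V
      rw [mul_assoc, ← pow_succ]
      exact hEV _ (hyj (j + 1) hj) _ (hb a)
    · simp
    · intro x z _ _ hx hz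
      rw [add_mul]; exact V.add_mem hx hz
    · intro c x _ hx
      rw [hsm', mul_assoc]
      exact V.smul_mem c hx
  have hVC : ∀ c ∈ C, ∀ v ∈ V, v * c ∈ V := by
    intro c hc v hv
    have hcp : ∀ j, y ^ j * c = c * y ^ j := fun j =>
      (Commute.pow_right (show Commute c y from hCy c hc) j).eq.symm
    refine Submodule.span_induction (p := fun v _ => v * c ∈ V) ?_ ?_ ?_ ?_ hv
    · rintro _ ⟨a, _, j, hj, rfl⟩
      change b a * y ^ j * c ∈ V
      rw [mul_assoc, hcp, ← mul_assoc]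
      exact hEj _ (E.mul_mem (hb a) (hC c hc)) j hj
    · simp
    · intro x z _ _ hx hz
      rw [add_mul]; exact V.add_mem hx hz
    · intro c x _ hx
      rw [hsm', mul_assoc]
      exact V.smul_mem c hx
  have hVr : ∀ x ∈ Subring.closure (C ∪ {y}), ∀ v ∈ V, v * x ∈ V := by
    intro x hx
    refine Subring.closure_induction (p := fun x _ => ∀ v ∈ V, v * x ∈ V) ?_ ?_ ?_ ?_ ?_ ?_ hx
    · rintro x (hx | hx) v hv
      · exact hVC x hx v hv
      · rw [Set.mem_singleton_iff.1 hx]; exact hVy v hv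
    · intro v _; simp
    · intro v hv; simpa using hv
    · intro a c _ _ ha hc v hv
      rw [mul_add]; exact V.add_mem (ha v hv) (hc v hv)
    · intro a _ ha v hv
      rw [mul_neg]; exact V.neg_mem (ha v hv)
    · intro a c _ _ ha hc v hv
      rw [← mul_assoc]; exact hc _ (ha v hv)
  -- surjectivity of right multiplication by `r m`
  have hsurj : ∀ v ∈ V, ∃ v' ∈ V, v = v' * r m := by
    haveI : Module.Finite M V := Module.Finite.iff_fg.2 hVfin
    let φ : V →ₗ[M] V :=
      { toFun := fun v => ⟨(v : D) * r m, hVr _ (hr m) _ v.2⟩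
        map_add' := fun a c => Subtype.ext (add_mul _ _ _)
        map_smul' := fun c a => Subtype.ext (by
          change ((c • (a : D)) * r m : D) = c • ((a : D) * r m)
          rw [hsm', hsm', mul_assoc]) }
    have hinj : Function.Injective φ := by
      intro a c hac
      have h1 : (a : D) * r m = (c : D) * r m := congrArg Subtype.val hac
      exact Subtype.ext (mul_right_cancel₀ hrm h1)
    have hs : Function.Surjective φ := (LinearMap.injective_iff_surjective).1 hinj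
    intro v hv
    obtain ⟨w, hw⟩ := hs ⟨v, hv⟩
    exact ⟨w, w.2, (congrArg Subtype.val hw).symm⟩
  -- commutation of `ι t` with `V`
  have htp : ∀ j, y ^ j * ι t = ι t * y ^ j := fun j =>
    (Commute.pow_left (show Commute y (ι t) from hty) j).eq
  have htV : ∀ v ∈ V, ι t * v = v * ι t := by
    intro v hv
    refine Submodule.span_induction (p := fun v _ => ι t * v = v * ι t) ?_ ?_ ?_ ?_ hv
    · rintro _ ⟨a, _, j, hj, rfl⟩
      change ι t * (b a * y ^ j) = b a * y ^ j * ι t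
      rw [mul_assoc, htp, ← mul_assoc, ← mul_assoc, htE _ (hb a)]
    · simp
    · intro x z _ _ hx hz
      rw [add_mul, mul_add, hx, hz]
    · intro c x _ hx
      rw [hsm', mul_assoc, ← hx, ← mul_assoc, ← mul_assoc, ← map_mul, ← map_mul, mul_comm]
  -- the space `W`
  set GW : Set D := Set.image2 (fun g i => g * ι t ^ i) GV (Set.Iio m) with hGW
  set W : Submodule M D := Submodule.span M GW with hW
  have hWfin : W.FG :=
    Submodule.fg_span ((((Set.finite_Iio N).image2 _ (Set.finite_Iio j₀))).image2 _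
      (Set.finite_Iio m))
  have hVW : ∀ i, i < m → ∀ v ∈ V, v * ι t ^ i ∈ W := by
    intro i hi v hv
    refine Submodule.span_induction (p := fun v _ => v * ι t ^ i ∈ W) ?_ ?_ ?_ ?_ hv
    · intro g hg
      exact Submodule.subset_span ⟨g, hg, i, hi, rfl⟩
    · simp
    · intro x z _ _ hx hz
      rw [add_mul]; exact W.add_mem hx hz
    · intro c x _ hx
      rw [hsm', mul_assoc]
      exact W.smul_mem c hx
  have hVW' : ∀ i, i ≤ m → ∀ v ∈ V, v * ι t ^ i ∈ W := by
    intro i hi v hv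
    rcases Nat.lt_or_ge i m with h | h
    · exact hVW i h v hv
    · have him : i = m := le_antisymm hi h
      subst him
      obtain ⟨v', hv', rfl⟩ := hsurj v hv
      rw [Finset.sum_range_succ] at hrt
      have h2 : r i * ι t ^ i = - ∑ k ∈ range i, r k * ι t ^ k := by
        rw [eq_neg_iff_add_eq_zero, add_comm]; exact hrt
      rw [mul_assoc, h2, mul_neg, Finset.mul_sum]
      refine W.neg_mem (Submodule.sum_mem _ fun k hk => ?_)
      rw [← mul_assoc]
      exact hVW k (Finset.mem_range.1 hk) _ (hVr _ (hr k) _ hv')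
  have hstab : ∀ w ∈ W, t • w ∈ W := by
    intro w hw
    refine Submodule.span_induction (p := fun w _ => t • w ∈ W) ?_ ?_ ?_ ?_ hw
    · rintro _ ⟨g, hg, i, hi, rfl⟩
      have hgV : g ∈ V := Submodule.subset_span hg
      change ι t * (g * ι t ^ i) ∈ W
      rw [← mul_assoc, htV g hgV, mul_assoc, ← pow_succ']
      exact hVW' (i + 1) hi g hgV
    · simp
    · intro x z _ _ hx hz
      rw [smul_add]; exact W.add_mem hx hz
    · intro c x _ hx
      have : t • (c • x) = c • (t • x) := by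
        rw [hsm, hsm', hsm', hsm, ← mul_assoc, ← mul_assoc, ← map_mul, ← map_mul, mul_comm]
      rw [this]; exact W.smul_mem c hx
  have h1W : (1 : D) ∈ W := by
    have h1V : (1 : D) ∈ V := by simpa using hyj 0 (Nat.zero_le _)
    simpa using hVW 0 hm0 1 h1V
  have hne : W ≠ ⊥ := fun h => by
    rw [h, Submodule.mem_bot] at h1W; exact one_ne_zero h1W
  haveI : IsScalarTower M K D := ⟨fun a x d => by
    change ι ((a : K) * x) * d = ι (a : K) * (ι x * d)
    rw [map_mul, mul_assoc]⟩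
  exact (isIntegral_of_smul_mem_submodule W hne hWfin t hstab).isAlgebraic

theorem exists_top {D : Type} [DivisionRing D] (q : ℕ → D) (y : D) (n : ℕ)
    (h : ∑ j ∈ range n, q j * y ^ j = 0) (hq : ∃ j, j < n ∧ q j ≠ 0) :
    ∃ j₀, j₀ < n ∧ q j₀ ≠ 0 ∧ ∑ j ∈ range (j₀ + 1), q j * y ^ j = 0 := by
  induction n with
  | zero => obtain ⟨j, hj, _⟩ := hq; omega
  | succ n ih =>
    by_cases hn : q n = 0
    · obtain ⟨j, hj, hj0⟩ := hq
      have hjn : j ≠ n := fun e => hj0 (e ▸ hn)
      rw [Finset.sum_range_succ, hn, zero_mul, add_zero] at h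
      obtain ⟨j₀, h1, h2, h3⟩ := ih h ⟨j, by omega, hj0⟩
      exact ⟨j₀, by omega, h2, h3⟩
    · exact ⟨n, by omega, hn, h⟩

/-- `NoAlg` in a more convenient form. -/
theorem noAlg' {K : Type} [Field K] [CharZero K] {D : Type} [DivisionRing D] {T : Data K}
    {A : Alg T.toCore D} (hN : NoAlg A) {ω : D} (hω : ω ∉ A.Fs) (n : ℕ) (c : ℕ → K)
    (hc : ∀ i, c i ∈ fix T.g) (h : ∑ i ∈ range n, A.ι (c i) * ω ^ i = 0) :
    ∀ i, i < n → c i = 0 := by
  intro i hi
  by_contra hi0
  obtain ⟨j₀, _, h2, h3⟩ := exists_top (fun i => A.ι (c i)) ω n h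
    ⟨i, hi, (map_ne_zero A.ι).2 hi0⟩
  obtain ⟨f, hf, hωf⟩ := hN ω j₀ c hc ((map_ne_zero A.ι).1 h2) h3
  exact hω ⟨f, hf, hωf.symm⟩

/-- conjugation by a non zero element -/
def cj {D : Type} [DivisionRing D] (a : D) (ha : a ≠ 0) : D →+* D where
  toFun x := a * x * a⁻¹
  map_one' := by rw [mul_one, mul_inv_cancel₀ ha]
  map_mul' x y := by
    rw [show a * x * a⁻¹ * (a * y * a⁻¹) = a * x * (a⁻¹ * a) * y * a⁻¹ by
      simp only [mul_assoc], inv_mul_cancel₀ ha, mul_one, mul_assoc a x y]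
  map_zero' := by simp
  map_add' x y := by rw [mul_add, add_mul]

theorem cj_apply {D : Type} [DivisionRing D] (a : D) (ha : a ≠ 0) (x : D) :
    cj a ha x = a * x * a⁻¹ := rfl

/-- `E_l` as a subring -/
def ER {K : Type} [Field K] [CharZero K] {D : Type} [DivisionRing D] {T : Data K}
    {A : Alg T.toCore D} (hE : BaseE A) (l : ℕ) : Subring D where
  carrier := A.El l
  mul_mem' {a b} ha hb := hE.mul_mem l a b ha hb
  one_mem' := hE.one_mem l
  add_mem' {a b} ha hb := hE.add_mem l a b ha hb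
  zero_mem' := hE.zero_mem l
  neg_mem' {a} ha := hE.neg_mem l a ha

/-- `D_l` as a subring -/
def DR {K : Type} [Field K] [CharZero K] {D : Type} [DivisionRing D] {C : Core K}
    {A : Alg C D} (hB : Base A) (l : ℕ) : Subring D where
  carrier := A.Dl l
  mul_mem' {a b} ha hb := hB.mul_mem l a b ha hb
  one_mem' := hB.one_mem l
  add_mem' {a b} ha hb := hB.add_mem l a b ha hb
  zero_mem' := hB.zero_mem l
  neg_mem' {a} ha := hB.neg_mem l a ha

theorem mem_ER {K : Type} [Field K] [CharZero K] {D : Type} [DivisionRing D] {T : Data K}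
    {A : Alg T.toCore D} (hE : BaseE A) (l : ℕ) (x : D) : x ∈ ER hE l ↔ x ∈ A.El l := Iff.rfl

theorem mem_DR {K : Type} [Field K] [CharZero K] {D : Type} [DivisionRing D] {C : Core K}
    {A : Alg C D} (hB : Base A) (l : ℕ) (x : D) : x ∈ DR hB l ↔ x ∈ A.Dl l := Iff.rfl

/-- PIECE D8a. -/
theorem p_sep (hacl : AclFacts) : S_sep := by
  intro K _ _ T D _ A hB hE hN h2 l ω d hω hωF hd hd0 n p hp hpne hsum
  have hu0 : A.u (l + 1) ≠ 0 := hB.u_ne _
  have hdu : d * A.u (l + 1) ≠ 0 := mul_ne_zero hd0 hu0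
  set Φ : D →+* D := cj (d * A.u (l + 1)) hdu with hΦ
  set ω' : D := Φ ω with hω'
  have hωD : ω ∈ A.Dl l := hE.sub l hω
  have hω'D : ω' ∈ A.Dl l := by
    have h1 : ω' = d * (A.u (l + 1) * ω * (A.u (l + 1))⁻¹) * d⁻¹ := by
      rw [hω', hΦ, cj_apply, mul_inv_rev]; simp only [mul_assoc]
    rw [h1]
    exact hB.mul_mem l _ _ (hB.mul_mem l _ _ hd (hB.conj l ω hωD)) (hB.inv_mem l _ hd)
  have hmove : ∀ j, d * A.u (l + 1) * ω ^ j = ω' ^ j * (d * A.u (l + 1)) := by
    intro j
    rw [hω', ← map_pow, hΦ, cj_apply, mul_assoc (d * A.u (l + 1) * ω ^ j),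
      inv_mul_cancel₀ hdu, mul_one]
  -- the left relation of `ω'`
  set q : ℕ → D := fun j => ∑ i ∈ range n, A.ι (p i j) * ω ^ i with hqdef
  have hqE : ∀ j, q j ∈ ER hE l := by
    intro j
    refine Subring.sum_mem _ fun i _ => ?_
    exact (ER hE l).mul_mem (hE.ι_mem l _ (hp i j).2) ((ER hE l).pow_mem hω i)
  have hrel : ∑ j ∈ range n, q j * ω' ^ j = 0 := by
    have h1 : (∑ j ∈ range n, q j * ω' ^ j) * (d * A.u (l + 1)) = 0 := by
      rw [← hsum, Finset.sum_comm, Finset.sum_mul]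
      refine Finset.sum_congr rfl fun j _ => ?_
      rw [hqdef, mul_assoc, ← hmove j, Finset.sum_mul]
      refine Finset.sum_congr rfl fun i _ => ?_
      simp only [mul_assoc]
    exact (mul_eq_zero.1 h1).resolve_right hdu
  have hqne : ∃ j, j < n ∧ q j ≠ 0 := by
    obtain ⟨i, j, hi, hj, hij⟩ := hpne
    refine ⟨j, hj, fun h => hij ?_⟩
    exact noAlg' hN hωF n (fun i => p i j) (fun i => (hp i j).1) h i hi
  obtain ⟨j₀, _, hq0, hrel0⟩ := exists_top q ω' n hrel hqne
  -- the element `t`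
  obtain ⟨t, htM, htg, htF⟩ := hE.exists_Z l
  have htg' : T.g l (T.g (l + 1) t) = T.g (l + 1) t := by
    rw [← T.g_sq l, T.g_sq l t, htg]
  obtain ⟨m, r, hr, hrm, hrt⟩ := h2 hacl K T D A hB hE hN l ω hω hωF t htM htg
  set C : Set D := A.ι '' ((fix T.g : Set K) ∩ (T.M l : Set K)) with hCdef
  have hcent : ∀ x, T.g l x = x → ∀ e ∈ A.Dl l, e * A.ι x = A.ι x * e :=
    fun x hx e he => (hB.cen l x hx e he).symm
  have hΦC : ∀ c ∈ C, Φ c = c := by
    rintro _ ⟨x, ⟨hx, _⟩, rfl⟩
    rw [hΦ, cj_apply]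
    have h1 : A.u (l + 1) * A.ι x = A.ι x * A.u (l + 1) := by
      rw [A.u_comm, hx (l + 1)]
    have h2 : d * A.ι x = A.ι x * d := hcent x (hx l) d hd
    rw [mul_assoc d, h1, ← mul_assoc, h2, mul_assoc (A.ι x), mul_assoc (A.ι x),
      mul_inv_cancel₀ hdu, mul_one]
  have hΦt : Φ (A.ι t) = A.ι (T.g (l + 1) t) := by
    rw [hΦ, cj_apply, mul_assoc d, A.u_comm, ← mul_assoc, hcent _ htg' d hd,
      mul_assoc (A.ι _), mul_assoc (A.ι _), mul_inv_cancel₀ hdu, mul_one]
  have hcl : Subring.closure (C ∪ {ω}) ≤ (Subring.closure (C ∪ {ω'})).comap Φ := by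
    rw [Subring.closure_le]
    rintro x (hx | hx)
    · change Φ x ∈ Subring.closure (C ∪ {ω'})
      rw [hΦC x hx]
      exact Subring.subset_closure (Or.inl hx)
    · change Φ x ∈ Subring.closure (C ∪ {ω'})
      rw [Set.mem_singleton_iff.1 hx]
      exact Subring.subset_closure (Or.inr rfl)
  have hfin : IsAlgebraic (T.M l) (T.g (l + 1) t) := by
    refine abs_sep A.ι (T.M l) (ER hE l) (fun x hx => hE.ι_mem l x hx) (2 ^ l)
      (fun i => A.u l ^ i) (fun i => (ER hE l).pow_mem (hE.u_mem l) i) ?_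
      (fun e he => hE.inv_mem l e he) ω' j₀ q hqE hq0 hrel0 C ?_ ?_ (T.g (l + 1) t)
      (fun e he => hcent _ htg' e (hE.sub l he)) (hcent _ htg' _ hω'D) m
      (fun i => Φ (r i)) (fun i => hcl (hr i)) ?_ ?_
    · rintro e ⟨f, hf, rfl⟩
      exact ⟨f, hf, rfl⟩
    · rintro _ ⟨x, ⟨_, hx⟩, rfl⟩
      exact hE.ι_mem l x hx
    · rintro _ ⟨x, ⟨hx, _⟩, rfl⟩
      exact hB.cen l x (hx l) _ hω'D
    · exact (map_ne_zero Φ).2 hrm
    · have h3 := congrArg Φ hrt
      rw [map_sum, map_zero] at h3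
      rw [← h3]
      refine Finset.sum_congr rfl fun i _ => ?_
      rw [map_mul, map_pow, hΦt]
  refine T.free l t htM htF ?_
  change IsAlgebraic (Subfield.closure (T.M l : Set K)) _
  rw [Subfield.closure_eq]
  exact hfin

end Pool.Agent.Run7.h253.D57
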